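import Pool.Agent.SRC68.Main
import Pool.Agent.SRC68.BL
import Pool.Agent.SRC68.C1
import Pool.Agent.SRC68.C2
import Pool.Agent.SRC68.C3
import Pool.Agent.SRC68.C4
import Pool.Agent.SRC68.DA
import Pool.Agent.SRC68.DB
import Pool.Agent.SRC68.DC0
import Pool.Agent.SRC68.DC1
import Pool.Agent.SRC68.DR
import Pool.Agent.SRC68.Q1
import Pool.Agent.SRC68.Q2
import Pool.Agent.SRC68.TR
import Pool.Agent.SRC68.VF

/-!
# MP_fe9afc_ag: separably rationally connected Fano hypersurfaces over prime fields

For every prime `p` and all `n ≥ 2`, `1 ≤ d ≤ n` there is a smooth hypersurface of degree `d` in `P ^ n` over `F_p`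
which contains a very free rational curve (over the algebraic closure of `F_p`).

Project SRC: plan and statements by helper68 and helper51 (very free plane monoid curve); pieces by helper2,
helper4, helper12, helper15, helper32, helper59, helper68, helper83, helper84, helper87, helper89.
-/

set_option autoImplicit false

open Polynomial

namespace Pool.Agent.Results.MP_fe9afc_ag.SeparablyRationallyConnected

/-- The hypersurface `F = 0` in `P ^ n`, `F` with coefficients in `F_p`, has no singular point over the algebraic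
closure of `F_p`. -/
def IsSmoothHypersurface {p n : ℕ} [Fact p.Prime] (F : MvPolynomial (Fin (n + 1)) (ZMod p)) : Prop :=
  ∀ x : Fin (n + 1) → AlgebraicClosure (ZMod p), x ≠ 0 → MvPolynomial.aeval x F = 0 →
    ∃ i, MvPolynomial.aeval x (MvPolynomial.pderiv i F) ≠ 0

/-- `f = (f_0 : … : f_n)` is a morphism of degree `e` from the projective line (with the coordinate `T`) to the
hypersurface `F = 0`, over `k = AlgebraicClosure (ZMod p)`: the `f_i ∈ k[T]` have degree at most `e`, one of them has
degree `e`, they have no common zero in `k`, and `F (f) = 0`. -/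
structure IsRationalCurve {p n : ℕ} [Fact p.Prime] (F : MvPolynomial (Fin (n + 1)) (ZMod p)) (e : ℕ)
    (f : Fin (n + 1) → (AlgebraicClosure (ZMod p))[X]) : Prop where
  degree_le : ∀ i, (f i).degree ≤ e
  no_zero_at_infinity : ∃ i, (f i).coeff e ≠ 0
  no_zero : ∀ t : AlgebraicClosure (ZMod p), ∃ i, (f i).eval t ≠ 0
  lies_on : MvPolynomial.aeval f F = 0

/-- The vectors `v` of polynomials of degree at most `e - 1` with `∑ v_i (∂_i F) (f) = 0`: by the Euler sequence they
represent the sections of `f ^ * T_X (-1)` (`f` itself is the kernel of the Euler sequence). -/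
def IsTangentSection {p n : ℕ} [Fact p.Prime] (F : MvPolynomial (Fin (n + 1)) (ZMod p)) (e : ℕ)
    (f v : Fin (n + 1) → (AlgebraicClosure (ZMod p))[X]) : Prop :=
  (∀ i, (v i).degree < e) ∧ ∑ i, v i * MvPolynomial.aeval f (MvPolynomial.pderiv i F) = 0

/-- The curve `f` in `X` (`F = 0`) is very free: `f ^ * T_X (-1)` has `dim X = n - 1` sections which are linearly
independent at the generic point of `P ^ 1`, i.e. `f ^ * T_X` is a direct sum of line bundles of degrees at least `1`,
i.e. `f ^ * T_X` is ample. -/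
def IsVeryFree {p n : ℕ} [Fact p.Prime] (F : MvPolynomial (Fin (n + 1)) (ZMod p)) (e : ℕ)
    (f : Fin (n + 1) → (AlgebraicClosure (ZMod p))[X]) : Prop :=
  IsRationalCurve F e f ∧
    ∃ v : Fin (n - 1) → Fin (n + 1) → (AlgebraicClosure (ZMod p))[X],
      (∀ j, IsTangentSection F e f (v j)) ∧
      LinearIndependent (AlgebraicClosure (ZMod p))[X]
        (Fin.cons f v : Fin (n - 1 + 1) → Fin (n + 1) → (AlgebraicClosure (ZMod p))[X])

/-- The hypersurface `F = 0` is separably rationally connected: it contains a very free rational curve. -/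
def IsSRC {p n : ℕ} [Fact p.Prime] (F : MvPolynomial (Fin (n + 1)) (ZMod p)) : Prop :=
  ∃ (e : ℕ) (f : Fin (n + 1) → (AlgebraicClosure (ZMod p))[X]), IsVeryFree F e f

theorem of_good {p : ℕ} [Fact p.Prime] {n d : ℕ} (h : SRC68.Good p n d) :
    ∃ F : MvPolynomial (Fin (n + 1)) (ZMod p),
      F.IsHomogeneous d ∧ IsSmoothHypersurface F ∧ IsSRC F := by
  obtain ⟨F, hF, hs, e, f, hv⟩ := h
  refine ⟨F, hF, ?_, e, f, ⟨hv.deg, hv.top, hv.nz, hv.on⟩, ?_⟩
  · intro x hx h0
    by_contra hc
    push Not at hc
    exact hx (hs x h0 hc)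
  · obtain ⟨v, h1, h2, h3⟩ := hv.vf
    have hcard : n - 1 = Fintype.card (Fin (n + 1)) - 2 := by
      rw [Fintype.card_fin]
      omega
    refine ⟨fun j => v (Fin.cast hcard j), fun j => ⟨h1 _, h2 _⟩, ?_⟩
    have hinj : Function.Injective
        (Fin.cons none (fun j => some (Fin.cast hcard j)) :
          Fin (n - 1 + 1) → Option (Fin (Fintype.card (Fin (n + 1)) - 2))) := by
      rw [Fin.cons_injective_iff]
      refine ⟨?_, ?_⟩
      · rintro ⟨j, hj⟩
        exact absurd hj (by simp)
      · intro i j hij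
        have := Option.some.inj hij
        exact Fin.cast_injective _ this
    have h4 := h3.comp _ hinj
    convert h4 using 1
    funext j
    refine Fin.cases ?_ (fun i => ?_) j
    · simp
    · simp

/-- For every prime `p` and all integers `n ≥ 2`, `1 ≤ d ≤ n` there is a form `F` of degree `d` in `n + 1` variables
over `F_p` such that the hypersurface `F = 0` in `P ^ n` is smooth and separably rationally connected. -/
theorem result (p : ℕ) [Fact p.Prime] (n d : ℕ) (hn : 2 ≤ n) (hd : 1 ≤ d) (hdn : d ≤ n) :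
    ∃ F : MvPolynomial (Fin (n + 1)) (ZMod p),
      F.IsHomogeneous d ∧ IsSmoothHypersurface F ∧ IsSRC F :=
  of_good (SRC68.t_MAIN (SRC68.t_C1 SRC68.t_VF SRC68.t_TR) (SRC68.t_C2 SRC68.t_VF SRC68.t_TR)
    (SRC68.t_C3 SRC68.t_VF SRC68.t_TR) (SRC68.t_C4 SRC68.t_VF SRC68.t_TR) SRC68.t_DA SRC68.t_DB
    (SRC68.t_DC0 SRC68.t_BL SRC68.t_DR) (SRC68.t_DC1 SRC68.t_BL SRC68.t_DR) SRC68.t_Q1
    (SRC68.t_Q2 SRC68.t_TR) p n d hn hd hdn)

end Pool.Agent.Results.MP_fe9afc_ag.SeparablyRationallyConnected
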